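import Mathlib
import Pool.Agent.Lib.MP_ad4d1c_co_h48.Family

set_option autoImplicit false

namespace Pool.Agent.Lib.MP_ad4d1c_co_h38

open Finset Pool.Agent.Lib.MP_ad4d1c_co_h48

/-- The set of bit positions of a mask. -/
def toSet (m : ℕ) : Finset ℕ := m.bitIndices.toFinset

theorem mem_toSet {m i : ℕ} : i ∈ toSet m ↔ m.testBit i = true := by
  simp [toSet]

theorem toSet_zero : toSet 0 = ∅ := by simp [toSet]

/-- Both masks of a pair as sets. -/
def toPair (p : ℕ × ℕ) : Finset ℕ × Finset ℕ := (toSet p.1, toSet p.2)

theorem toSet_injective : Function.Injective toSet := by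
  intro a b h
  apply Nat.eq_of_testBit_eq
  intro i
  have := congrArg (fun s => i ∈ s) h
  simp only [mem_toSet, eq_iff_iff] at this
  exact Bool.eq_iff_iff.2 this

theorem toSet_subset_of_land {a b : ℕ} (h : a &&& b = a) : toSet a ⊆ toSet b := by
  intro i hi
  rw [mem_toSet] at hi ⊢
  rw [← h, Nat.testBit_and, Bool.and_eq_true] at hi
  exact hi.2

theorem toSet_subset_range {a n : ℕ} (h : a < 2 ^ n) : toSet a ⊆ range n := by
  intro i hi
  rw [mem_toSet] at hi
  rw [mem_range]
  by_contra hc
  push Not at hc
  rw [Nat.testBit_lt_two_pow (lt_of_lt_of_le h (Nat.pow_le_pow_right (by norm_num) hc))] at hi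
  exact absurd hi (by simp)

theorem toSet_xor {a i : ℕ} (h : a.testBit i = true) : toSet (a ^^^ 2 ^ i) = (toSet a).erase i := by
  ext j
  rw [mem_toSet, mem_erase, mem_toSet, Nat.testBit_xor, Nat.testBit_two_pow]
  by_cases hij : i = j
  · subst hij
    simp [h]
  · simp [hij, Ne.symm hij]

/-- number of bits below `f` -/
def pc : ℕ → ℕ → ℕ
  | 0, _ => 0
  | f + 1, m => m % 2 + pc f (m / 2)

theorem pc_eq (f : ℕ) : ∀ m, m < 2 ^ f → pc f m = (toSet m).card := by
  induction f with
  | zero =>
    intro m hm
    have : m = 0 := by simpa using hm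
    subst this
    simp [pc, toSet_zero]
  | succ f ih =>
    intro m hm
    have h2 : m / 2 < 2 ^ f := by
      rw [Nat.div_lt_iff_lt_mul (by norm_num)]
      rw [pow_succ] at hm
      exact hm
    rw [pc, ih _ h2]
    have h1 : toSet m = (if m.testBit 0 then {0} else ∅) ∪ (toSet (m / 2)).map ⟨Nat.succ, Nat.succ_injective⟩ := by
      ext j
      rw [mem_union, mem_toSet]
      rcases j with _ | j
      · by_cases h : m.testBit 0 = true <;> simp [h]
      · rw [Nat.testBit_succ]
        constructor
        · intro hj
          right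
          rw [mem_map]
          exact ⟨j, mem_toSet.2 hj, rfl⟩
        · intro hj
          rcases hj with hj | hj
          · split_ifs at hj <;> simp at hj
          · rw [mem_map] at hj
            obtain ⟨a, ha, hj⟩ := hj
            have : a = j := Nat.succ_injective hj
            rw [← this]
            exact mem_toSet.1 ha
    rw [h1, card_union_of_disjoint, card_map]
    · congr 1
      by_cases h : m.testBit 0 = true
      · rw [if_pos h]
        rw [Nat.testBit_zero, decide_eq_true_eq] at h
        simp [h]
      · rw [if_neg h]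
        rw [Nat.testBit_zero, decide_eq_true_eq] at h
        simp
        omega
    · rw [Finset.disjoint_left]
      intro a ha hb
      rw [mem_map] at hb
      obtain ⟨b, hb, hab⟩ := hb
      split_ifs at ha
      · rw [mem_singleton] at ha
        rw [ha] at hab
        exact absurd hab (by simp)
      · simp at ha

/-- no mask of `later` is `U` with one bit removed (bits below the fuel) -/
def bitsOk (later U : ℕ) : ℕ → Bool
  | 0 => true
  | i + 1 => (!(U.testBit i) || !(later.testBit (U ^^^ (2 ^ i)))) && bitsOk later U i

theorem bitsOk_iff (later U : ℕ) : ∀ f, bitsOk later U f = true ↔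
    ∀ i < f, U.testBit i = true → later.testBit (U ^^^ (2 ^ i)) = false := by
  intro f
  induction f with
  | zero => simp [bitsOk]
  | succ f ih =>
    rw [bitsOk, Bool.and_eq_true, ih]
    constructor
    · rintro ⟨h1, h2⟩ i hi hU
      rcases Nat.lt_succ_iff_lt_or_eq.1 hi with h | h
      · exact h2 i h hU
      · subst h
        simpa [hU] using h1
    · intro h
      refine ⟨?_, fun i hi => h i (by omega)⟩
      by_cases hU : U.testBit f = true
      · have := h f (by omega) hU
        simp [this]
      · simp [hU]

/-- forces the evaluation of a numeral -/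
def force {α : Type*} (n : ℕ) (f : ℕ → α) : α :=
  match n with
  | 0 => f 0
  | k + 1 => f (k + 1)

theorem force_eq {α : Type*} (n : ℕ) (f : ℕ → α) : force n f = f n := by
  cases n <;> rfl

/-- The checker, running through a reversed list: `later` is the bitset of the masks `B` already
seen, `mc` the least cardinality of them, `nU` the last mask `U` seen (anything containing
everything at the start). -/
def check (n : ℕ) : List (ℕ × ℕ) → ℕ → ℕ → ℕ → Bool
  | [], _, _, _ => true
  | p :: rest, later, mc, nU =>
    force p.1 fun U => force p.2 fun B => force (pc n B) fun c => force (pc n U) fun d =>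
      Nat.blt U (2 ^ n) && (Nat.beq (B &&& U) B && (Nat.beq (B &&& nU) B &&
        (Nat.ble c mc && (Nat.ble d (mc + 1) && (!(later.testBit U) && (bitsOk later U n &&
          force (later ||| 2 ^ B) fun later' => check n rest later' c U))))))

theorem check_cons (n : ℕ) (p : ℕ × ℕ) (rest : List (ℕ × ℕ)) (later mc nU : ℕ) :
    check n (p :: rest) later mc nU = true ↔
      (p.1 < 2 ^ n ∧ p.2 &&& p.1 = p.2 ∧ p.2 &&& nU = p.2 ∧ pc n p.2 ≤ mc ∧ pc n p.1 ≤ mc + 1 ∧
        later.testBit p.1 = false ∧ bitsOk later p.1 n = true ∧
        check n rest (later ||| 2 ^ p.2) (pc n p.2) p.1 = true) := by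
  rw [check]
  simp only [force_eq, Bool.and_eq_true, Nat.blt_eq, Nat.beq_eq, Nat.ble_eq,
    Bool.not_eq_true']

theorem check_sound (n : ℕ) : ∀ (R : List (ℕ × ℕ)) (later mc nU : ℕ),
    check n R later mc nU = true →
    (∀ b, later.testBit b = true → mc ≤ (toSet b).card) →
    (∀ p ∈ R, toSet p.2 ⊆ toSet p.1 ∧ p.1 < 2 ^ n ∧ p.2 < 2 ^ n) ∧
    (∀ p ∈ R.head?, toSet p.2 ⊆ toSet nU) ∧
    R.IsChain (fun q p => toSet p.2 ⊆ toSet q.1) ∧
    R.Pairwise (fun q p => ¬ toSet q.2 ⊆ toSet p.1) ∧
    (∀ p ∈ R, ∀ b, later.testBit b = true → ¬ toSet b ⊆ toSet p.1) := by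
  intro R
  induction R with
  | nil =>
    intro later mc nU _ _
    simp
  | cons p R ih =>
    intro later mc nU h hl
    rw [check_cons] at h
    obtain ⟨hU, hBU, hBn, hc, hd, ht, hb, hrest⟩ := h
    have hBU' : toSet p.2 ⊆ toSet p.1 := toSet_subset_of_land hBU
    have hB : p.2 < 2 ^ n := by
      rw [← hBU]
      exact Nat.and_lt_two_pow _ hU
    have hcB : pc n p.2 = (toSet p.2).card := pc_eq n _ hB
    have hcU : pc n p.1 = (toSet p.1).card := pc_eq n _ hU
    have hhead : ∀ b, later.testBit b = true → ¬ toSet b ⊆ toSet p.1 := by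
      intro b hb1 hsub
      have h1 := hl b hb1
      have h2 : (toSet p.1).card ≤ (toSet b).card + 1 := by
        rw [← hcU]
        omega
      by_cases he : toSet b = toSet p.1
      · have := toSet_injective he
        rw [this] at hb1
        rw [hb1] at ht
        exact absurd ht (by simp)
      · have hss : toSet b ⊂ toSet p.1 := lt_of_le_of_ne hsub he
        have h3 := card_lt_card hss
        obtain ⟨i, hi, hib⟩ := exists_of_ssubset hss
        have h4 : toSet b = (toSet p.1).erase i := by
          apply eq_of_subset_of_card_le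
          · intro j hj
            rw [mem_erase]
            exact ⟨fun hji => hib (hji ▸ hj), hsub hj⟩
          · rw [card_erase_of_mem hi]
            omega
        have hi' := mem_toSet.1 hi
        rw [← toSet_xor hi'] at h4
        have h5 := toSet_injective h4
        have h6 : i < n := mem_range.1 (toSet_subset_range hU hi)
        have h7 := (bitsOk_iff later p.1 n).1 hb i h6 hi'
        rw [← h5, hb1] at h7
        exact absurd h7 (by simp)
    have hl' : ∀ b, (later ||| 2 ^ p.2).testBit b = true → pc n p.2 ≤ (toSet b).card := by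
      intro b hb1
      rw [Nat.testBit_or, Bool.or_eq_true, Nat.testBit_two_pow, decide_eq_true_eq] at hb1
      rcases hb1 with hb1 | hb1
      · exact le_trans hc (hl b hb1)
      · rw [← hb1, hcB]
    obtain ⟨i1, i2, i4, i5, i6⟩ := ih _ _ _ hrest hl'
    refine ⟨?_, ?_, ?_, ?_, ?_⟩
    · intro q hq
      rcases List.mem_cons.1 hq with rfl | hq
      · exact ⟨hBU', hU, hB⟩
      · exact i1 q hq
    · intro q hq
      simp only [List.head?_cons, Option.mem_def, Option.some.injEq] at hq
      subst hq
      exact toSet_subset_of_land hBn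
    · exact List.isChain_cons.2 ⟨fun q hq => i2 q hq, i4⟩
    · rw [List.pairwise_cons]
      refine ⟨?_, i5⟩
      intro q hq
      exact i6 q hq p.2 (by rw [Nat.testBit_or, Nat.testBit_two_pow]; simp)
    · intro q hq b hb1
      rcases List.mem_cons.1 hq with rfl | hq
      · exact hhead b hb1
      · exact i6 q hq b (by rw [Nat.testBit_or, hb1]; rfl)

/-- Soundness of the checker for a list given in the right order. -/
theorem adm_of_check {n : ℕ} {R : List (ℕ × ℕ)}
    (h : check n R 0 (n + 1) (2 ^ n - 1) = true) :
    Adm (R.reverse.map toPair) ∧ ∀ p ∈ R, p.1 < 2 ^ n ∧ p.2 < 2 ^ n := by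
  obtain ⟨h1, -, h3, h4, -⟩ := check_sound n R 0 (n + 1) (2 ^ n - 1) h (by simp)
  refine ⟨⟨?_, ?_, ?_⟩, fun p hp => (h1 p hp).2⟩
  · intro q hq
    obtain ⟨p, hp, rfl⟩ := List.mem_map.1 hq
    exact (h1 p (List.mem_reverse.1 hp)).1
  · rw [List.isChain_map, List.isChain_reverse]
    exact h3
  · rw [List.pairwise_map, List.pairwise_reverse]
    exact h4

/-- Decoding of a path in the hypercube, from the last valley `B` down to the first one; two hex
digits per valley: the bit added to get the peak before it (or a bit of `B` itself if there is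
none) and the bit removed from the peak to get the previous valley. -/
def decode : ℕ → ℕ → ℕ → List (ℕ × ℕ)
  | 0, _, B => [(B, B)]
  | f + 1, d, B =>
    force (B ||| 2 ^ (d % 16)) fun U => force (U ^^^ 2 ^ (d / 16 % 16)) fun B' =>
      force (d / 256) fun d' => (U, B) :: decode f d' B'

theorem length_decode : ∀ f d B, (decode f d B).length = f + 1 := by
  intro f
  induction f with
  | zero => intro d B; rfl
  | succ f ih =>
    intro d B
    rw [decode]
    simp only [force_eq]
    rw [List.length_cons, ih]

/-- The first valley reached by `decode`. -/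
def firstB : ℕ → ℕ → ℕ → ℕ
  | 0, _, B => B
  | f + 1, d, B =>
    force (B ||| 2 ^ (d % 16)) fun U => force (U ^^^ 2 ^ (d / 16 % 16)) fun B' =>
      force (d / 256) fun d' => firstB f d' B'

theorem getLast?_decode : ∀ f d B, (decode f d B).getLast? = some (firstB f d B, firstB f d B) := by
  intro f
  induction f with
  | zero => intro d B; rfl
  | succ f ih =>
    intro d B
    rw [decode, firstB]
    simp only [force_eq]
    rw [List.getLast?_cons, ih]
    rfl

end Pool.Agent.Lib.MP_ad4d1c_co_h38
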