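import Mathlib
import Pool.Agent.Lib.MP_ad4d1c_co_h38.Check
import Pool.Agent.Lib.MP_ad4d1c_co_h48.ExDefs

set_option autoImplicit false

/-!
# Checker for explicit families (module D of the exact Felsner–Trotter theorem)

Families are given by masks; `dcd` decodes the *reversed* list of pairs of a level.
-/

namespace Pool.Agent.Lib.MP_ad4d1c_co_h38

open Finset Pool.Agent.Lib.MP_ad4d1c_co_h48 Pool.Agent.Lib.MP_ad4d1c_co_h48.Ex

/-- `k` pairs of masks `< M` from a number -/
def dcd (M : ℕ) : ℕ → ℕ → List (ℕ × ℕ)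
  | 0, _ => []
  | k + 1, n => force (n % M) fun U => force (n / M % M) fun B =>
      force (n / (M * M)) fun n' => (U, B) :: dcd M k n'

theorem length_dcd (M : ℕ) : ∀ k n, (dcd M k n).length = k := by
  intro k
  induction k with
  | zero => intro n; rfl
  | succ k ih =>
    intro n
    rw [dcd]
    simp only [force_eq, List.length_cons, ih]

/-- reversed level `l` of a coded family -/
def rlv (M : ℕ) (R : List (ℕ × ℕ)) (l : ℕ) : List (ℕ × ℕ) :=
  match R.drop l with
  | [] => []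
  | p :: _ => dcd M p.1 p.2

/-- level `l` of a family of masks given level by level -/
def tlv (T : List (List (ℕ × ℕ))) (l : ℕ) : List (ℕ × ℕ) :=
  match T.drop l with
  | [] => []
  | X :: _ => X

def famR (M : ℕ) (R : List (ℕ × ℕ)) : Fam := fun l => (rlv M R l).reverse.map toPair

def famT (T : List (List (ℕ × ℕ))) : Fam := fun l => (tlv T l).map toPair

theorem rlv_nil (M : ℕ) (R : List (ℕ × ℕ)) (l : ℕ) (h : R.length ≤ l) : rlv M R l = [] := by
  rw [rlv, List.drop_eq_nil_of_le h]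

theorem tlv_nil (T : List (List (ℕ × ℕ))) (l : ℕ) (h : T.length ≤ l) : tlv T l = [] := by
  rw [tlv, List.drop_eq_nil_of_le h]

/-- bitset of the masks `f p` -/
def bss (f : ℕ × ℕ → ℕ) : List (ℕ × ℕ) → ℕ → ℕ
  | [], acc => acc
  | p :: t, acc => force (acc ||| 2 ^ f p) fun acc' => bss f t acc'

theorem testBit_bss_acc (f : ℕ × ℕ → ℕ) : ∀ (X : List (ℕ × ℕ)) (acc b : ℕ),
    acc.testBit b = true → (bss f X acc).testBit b = true := by
  intro X
  induction X with
  | nil => intro acc b h; exact h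
  | cons p t ih =>
    intro acc b h
    rw [bss]
    simp only [force_eq]
    apply ih
    rw [Nat.testBit_or, h]
    rfl

theorem testBit_bss (f : ℕ × ℕ → ℕ) : ∀ (X : List (ℕ × ℕ)) (acc : ℕ), ∀ p ∈ X,
    (bss f X acc).testBit (f p) = true := by
  intro X
  induction X with
  | nil => intro acc p hp; simp at hp
  | cons q t ih =>
    intro acc p hp
    rw [bss]
    simp only [force_eq]
    rcases List.mem_cons.1 hp with rfl | h
    · apply testBit_bss_acc
      rw [Nat.testBit_or, Nat.testBit_two_pow]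
      simp
    · exact ih _ p h

theorem ne_of_bss {f g : ℕ × ℕ → ℕ} {X Y : List (ℕ × ℕ)}
    (h : (bss f X 0) &&& (bss g Y 0) = 0) {p q : ℕ × ℕ} (hp : p ∈ X) (hq : q ∈ Y) :
    g q ≠ f p := by
  intro he
  have h1 := testBit_bss f X 0 p hp
  have h2 := testBit_bss g Y 0 q hq
  rw [he] at h2
  have h3 := congrArg (fun m => m.testBit (f p)) h
  simp only [Nat.testBit_and, h1, h2, Nat.zero_testBit] at h3
  simp at h3

/-- mask of a list -/
def msk : List ℕ → ℕ
  | [] => 0
  | x :: t => 2 ^ x ||| msk t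

theorem toSet_msk (a : List ℕ) : toSet (msk a) = a.toFinset := by
  induction a with
  | nil => simp [msk, toSet_zero]
  | cons x t ih =>
    ext j
    rw [List.toFinset_cons, mem_insert, ← ih, mem_toSet, mem_toSet, msk, Nat.testBit_or,
      Nat.testBit_two_pow, Bool.or_eq_true, decide_eq_true_eq]
    constructor
    · rintro (h | h)
      · exact Or.inl h.symm
      · exact Or.inr h
    · rintro (h | h)
      · exact Or.inl h.symm
      · exact Or.inr h

theorem toSet_eq_filter (s m : ℕ) (h : m < 2 ^ s) :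
    toSet m = (range s).filter (fun i => m.testBit i = true) := by
  ext i
  rw [mem_filter, mem_toSet]
  constructor
  · intro hi
    exact ⟨toSet_subset_range h (mem_toSet.2 hi), hi⟩
  · exact fun hi => hi.2

theorem land_of_subset {a b : ℕ} (h : toSet a ⊆ toSet b) : a &&& b = a := by
  apply Nat.eq_of_testBit_eq
  intro i
  rw [Nat.testBit_and]
  by_cases ha : a.testBit i = true
  · have := h (mem_toSet.2 ha)
    rw [mem_toSet] at this
    simp [ha, this]
  · simp [ha]

/-- checks of one level of a T-PV family on `{0, …, s-1}`; `T` detached pairs, `R` reversed path,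
`T'`, `R'` next level -/
def levOk (s : ℕ) (b : List ℕ) (l : ℕ) (T R T' R' : List (ℕ × ℕ)) : Bool :=
  check s R 0 (s + 1) (2 ^ s - 1) &&
  ((R.all fun p => Nat.beq (pc s p.1) (l + 1) && Nat.beq (pc s p.2) l) &&
  ((T.all fun p => (Nat.beq (p.2 &&& p.1) p.2 && Nat.blt p.1 (2 ^ s)) &&
    ((Nat.beq (pc s p.1) (l + 1) && Nat.beq (pc s p.2) l) &&
      (R.all fun q => !(Nat.beq (q.2 &&& p.1) q.2)))) &&
  (Nat.ble T.length 1 &&
  (Nat.beq (T.length + R.length) (Nat.choose (s - 1) l) &&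
  ((R.getLast?.all fun p => Nat.beq p.1 (msk (b.take (l + 1)))) &&
  Nat.beq ((bss Prod.fst (T ++ R) 0) &&& (bss Prod.snd (T' ++ R') 0)) 0)))))

def tpvOk (s M : ℕ) (b : List ℕ) (T : List (List (ℕ × ℕ))) (R : List (ℕ × ℕ)) : Bool :=
  (Nat.ble T.length s && Nat.ble R.length s) &&
  (List.range s).all fun l =>
    levOk s b l (tlv T l) (rlv M R l) (tlv T (l + 1)) (rlv M R (l + 1))

def endsOk (s M : ℕ) (a : List ℕ) (R : List (ℕ × ℕ)) : Bool :=
  (List.range s).all fun l => ((rlv M R l).head?.all fun p => Nat.beq p.2 (msk (a.take l)))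

theorem perm_range_toFinset {s : ℕ} {b : List ℕ} (hb : b.Perm (List.range s)) :
    b.toFinset = range s := by
  rw [List.toFinset_eq_of_perm _ _ hb, List.toFinset_range]

theorem tpv_of_ok {s M : ℕ} {b : List ℕ} {T : List (List (ℕ × ℕ))} {R : List (ℕ × ℕ)}
    (hs : 0 < s) (hb : b.Perm (List.range s)) (h : tpvOk s M b T R = true) :
    TPV b (famT T) (famR M R) := by
  rw [tpvOk, Bool.and_eq_true, Bool.and_eq_true, List.all_eq_true, Nat.ble_eq, Nat.ble_eq] at h
  obtain ⟨⟨hTl, hRl⟩, h⟩ := h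
  have hl : ∀ l < s, levOk s b l (tlv T l) (rlv M R l) (tlv T (l + 1)) (rlv M R (l + 1)) = true :=
    fun l hl => h l (List.mem_range.2 hl)
  have hnilT : ∀ l, s ≤ l → famT T l = [] := by
    intro l hl
    rw [famT, tlv_nil T l (by omega)]
    rfl
  have hnilR : ∀ l, s ≤ l → famR M R l = [] := by
    intro l hl
    rw [famR, rlv_nil M R l (by omega)]
    rfl
  have hdec : ∀ l < s,
      check s (rlv M R l) 0 (s + 1) (2 ^ s - 1) = true ∧
      (∀ p ∈ rlv M R l, pc s p.1 = l + 1 ∧ pc s p.2 = l) ∧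
      (∀ p ∈ tlv T l, (p.2 &&& p.1 = p.2 ∧ p.1 < 2 ^ s) ∧ (pc s p.1 = l + 1 ∧ pc s p.2 = l) ∧
        ∀ q ∈ rlv M R l, Nat.beq (q.2 &&& p.1) q.2 = false) ∧
      (tlv T l).length ≤ 1 ∧
      ((tlv T l).length + (rlv M R l).length = Nat.choose (s - 1) l) ∧
      (∀ p ∈ (rlv M R l).getLast?, p.1 = msk (b.take (l + 1))) ∧
      ((bss Prod.fst (tlv T l ++ rlv M R l) 0) &&&
        (bss Prod.snd (tlv T (l + 1) ++ rlv M R (l + 1)) 0)) = 0 := by
    intro l h7
    have h1 := hl l h7
    rw [levOk] at h1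
    simp only [Bool.and_eq_true, List.all_eq_true, Nat.beq_eq, Nat.blt_eq, Nat.ble_eq,
      Option.all_eq_true, Bool.not_eq_true'] at h1
    obtain ⟨h1, h2, h3, h4, h5, h6, h8⟩ := h1
    exact ⟨h1, h2, h3, h4, h5, h6, h8⟩
  have hset : b.toFinset = range s := perm_range_toFinset hb
  have hlen : b.length = s := by rw [hb.length_eq, List.length_range]
  have hmemR : ∀ l < s, ∀ p ∈ rlv M R l, toSet p.2 ⊆ toSet p.1 ∧ p.1 < 2 ^ s ∧ p.2 < 2 ^ s :=
    fun l hl => (check_sound s _ _ _ _ (hdec l hl).1 (by simp)).1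
  have hmem : ∀ l < s, ∀ p ∈ tlv T l ++ rlv M R l, toSet p.2 ⊆ toSet p.1 ∧ p.1 < 2 ^ s ∧
      p.2 < 2 ^ s ∧ pc s p.1 = l + 1 ∧ pc s p.2 = l := by
    intro l hl p hp
    rcases List.mem_append.1 hp with hp | hp
    · obtain ⟨⟨h1, h2⟩, ⟨h3, h4⟩, -⟩ := (hdec l hl).2.2.1 p hp
      exact ⟨toSet_subset_of_land h1, h2, lt_of_le_of_lt (by rw [← h1]; exact Nat.and_le_right) h2,
        h3, h4⟩
    · obtain ⟨h1, h2, h3⟩ := hmemR l hl p hp
      obtain ⟨h4, h5⟩ := (hdec l hl).2.1 p hp
      exact ⟨h1, h2, h3, h4, h5⟩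
  have hin : ∀ l, ∀ p ∈ famT T l ++ famR M R l, l < s ∧ ∃ q ∈ tlv T l ++ rlv M R l,
      p = toPair q := by
    intro l p hp
    rcases Nat.lt_or_ge l s with h7 | h7
    · refine ⟨h7, ?_⟩
      rcases List.mem_append.1 hp with hp | hp
      · obtain ⟨q, hq, rfl⟩ := List.mem_map.1 hp
        exact ⟨q, List.mem_append_left _ hq, rfl⟩
      · obtain ⟨q, hq, rfl⟩ := List.mem_map.1 hp
        exact ⟨q, List.mem_append_right _ (List.mem_reverse.1 hq), rfl⟩
    · rw [hnilT l h7, hnilR l h7] at hp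
      simp at hp
  refine ⟨?_, ?_, ?_, ?_, ?_, ?_, ?_, ?_⟩
  · exact (hb.nodup_iff).2 List.nodup_range
  · intro l p hp
    obtain ⟨h7, q, hq, rfl⟩ := hin l p hp
    obtain ⟨h1, h2, h3, h4, h5⟩ := hmem l h7 q hq
    refine ⟨h1, ?_, ?_, ?_⟩
    · rw [hset]; exact toSet_subset_range h2
    · rw [← h4]; exact (pc_eq s _ h2).symm
    · conv_rhs => rw [← h5]
      exact (pc_eq s _ h3).symm
  · intro l
    rcases Nat.lt_or_ge l s with h7 | h7
    · rw [List.pairwise_append]
      refine ⟨?_, ?_, ?_⟩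
      · have h1 := (hdec l h7).2.2.2.1
        have h2 : (famT T l).length ≤ 1 := by rw [famT, List.length_map]; exact h1
        match hX : famT T l, h2 with
        | [], _ => simp
        | [x], _ => simp
      · rw [famR, List.pairwise_map, List.pairwise_reverse]
        exact (check_sound s _ _ _ _ (hdec l h7).1 (by simp)).2.2.2.1
      · intro p hp q hq hsub
        obtain ⟨p', hp', rfl⟩ := List.mem_map.1 hp
        obtain ⟨q', hq', rfl⟩ := List.mem_map.1 hq
        have h1 := ((hdec l h7).2.2.1 p' hp').2.2 q' (List.mem_reverse.1 hq')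
        have h2 : q'.2 &&& p'.1 = q'.2 := land_of_subset hsub
        rw [h2] at h1
        simp at h1
    · rw [hnilT l h7, hnilR l h7]; simp
  · intro l
    rcases Nat.lt_or_ge l s with h7 | h7
    · rw [famR, List.isChain_map, List.isChain_reverse]
      exact (check_sound s _ _ _ _ (hdec l h7).1 (by simp)).2.2.1
    · rw [hnilR l h7]; simp
  · intro l p hp q hq hqp
    obtain ⟨h7, p', hp', rfl⟩ := hin l p hp
    obtain ⟨h8, q', hq', rfl⟩ := hin (l + 1) q hq
    exact ne_of_bss (hdec l h7).2.2.2.2.2.2 hp' hq' (toSet_injective hqp)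
  · intro l
    rw [hlen]
    rcases Nat.lt_or_ge l s with h7 | h7
    · rw [famT, famR, List.length_map, List.length_map, List.length_reverse]
      exact (hdec l h7).2.2.2.2.1
    · rw [hnilT l h7, hnilR l h7, Nat.choose_eq_zero_of_lt]
      · rfl
      · omega
  · intro l
    rcases Nat.lt_or_ge l s with h7 | h7
    · rw [famT, List.length_map]
      exact (hdec l h7).2.2.2.1
    · rw [hnilT l h7]; simp
  · intro l p hp
    rcases Nat.lt_or_ge l s with h7 | h7
    · rw [famR, List.head?_map, List.head?_reverse, Option.mem_def, Option.map_eq_some_iff] at hp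
      obtain ⟨q, hq, rfl⟩ := hp
      have := (hdec l h7).2.2.2.2.2.1 q hq
      change toSet q.1 = _
      rw [this, toSet_msk]
    · rw [hnilR l h7] at hp
      simp at hp

theorem ends_of_ok {s M : ℕ} {a : List ℕ} {R : List (ℕ × ℕ)} (hR : R.length ≤ s)
    (h : endsOk s M a R = true) : Ends a (famR M R) := by
  intro l p hp
  rcases Nat.lt_or_ge l s with h7 | h7
  · rw [endsOk, List.all_eq_true] at h
    have h1 := h l (List.mem_range.2 h7)
    rw [Option.all_eq_true] at h1
    rw [famR, List.getLast?_map, List.getLast?_reverse, Option.mem_def,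
      Option.map_eq_some_iff] at hp
    obtain ⟨q, hq, rfl⟩ := hp
    have h2 := h1 q hq
    rw [Nat.beq_eq] at h2
    change toSet q.2 = _
    rw [h2, toSet_msk]
  · rw [famR, rlv_nil M R l (by omega)] at hp
    simp at hp

/-- a mask below `2 ^ s` is the set `X` -/
def isSet (s m : ℕ) (X : Finset ℕ) : Bool :=
  Nat.blt m (2 ^ s) && decide ((range s).filter (fun i => m.testBit i = true) = X)

theorem eq_of_isSet {s m : ℕ} {X : Finset ℕ} (h : isSet s m X = true) : toSet m = X := by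
  rw [isSet, Bool.and_eq_true, Nat.blt_eq, decide_eq_true_eq] at h
  rw [toSet_eq_filter s m h.1, h.2]

/-- level `l` of `T` is the single pair `(P, c)` -/
def isOne (s : ℕ) (X : List (ℕ × ℕ)) (P c : Finset ℕ) : Bool :=
  match X with
  | [] => false
  | [p] => isSet s p.1 P && isSet s p.2 c
  | _ :: _ :: _ => false

theorem eq_of_isOne {s : ℕ} {T : List (List (ℕ × ℕ))} {l : ℕ} {P c : Finset ℕ}
    (h : isOne s (tlv T l) P c = true) : famT T l = [(P, c)] := by
  rw [famT]
  match hX : tlv T l, h with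
  | [], h => simp [isOne] at h
  | [p], h =>
    rw [isOne, Bool.and_eq_true] at h
    rw [List.map_cons, List.map_nil, toPair, eq_of_isSet h.1, eq_of_isSet h.2]
  | _ :: _ :: _, h => simp [isOne] at h

/-- level `l` of `T` is a single pair with peak `P` -/
def isOneP (s : ℕ) (X : List (ℕ × ℕ)) (P : Finset ℕ) : Bool :=
  match X with
  | [] => false
  | [p] => isSet s p.1 P
  | _ :: _ :: _ => false

theorem eq_of_isOneP {s : ℕ} {T : List (List (ℕ × ℕ))} {l : ℕ} {P : Finset ℕ}
    (h : isOneP s (tlv T l) P = true) : ∃ c, famT T l = [(P, c)] := by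
  rw [famT]
  match hX : tlv T l, h with
  | [], h => simp [isOneP] at h
  | [p], h =>
    rw [isOneP] at h
    rw [List.map_cons, List.map_nil, toPair, eq_of_isSet h]
    exact ⟨_, rfl⟩
  | _ :: _ :: _, h => simp [isOneP] at h

def linkOk (X Y : List (ℕ × ℕ)) : Bool :=
  X.all fun p => Y.all fun q => Nat.beq (p.2 &&& q.2) p.2

/-- at most the first element of a list -/
def hd {α : Type*} : List α → List α
  | [] => []
  | p :: _ => [p]

theorem mem_hd {α : Type*} {X : List α} {p : α} (h : p ∈ X.head?) : p ∈ hd X := by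
  cases X with
  | nil => simp at h
  | cons q X =>
    rw [List.head?_cons, Option.mem_def, Option.some.injEq] at h
    rw [hd, h]
    exact List.mem_singleton_self _

theorem link_of_ok {M l : ℕ} {R : List (ℕ × ℕ)} {T : List (List (ℕ × ℕ))} {l' : ℕ}
    (h : linkOk (hd (rlv M R l)) (tlv T l') = true) :
    ∀ p ∈ (famR M R l).getLast?, ∀ q ∈ famT T l', p.2 ⊆ q.2 := by
  intro p hp q hq
  rw [linkOk, List.all_eq_true] at h
  rw [famR, List.getLast?_map, List.getLast?_reverse, Option.mem_def,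
      Option.map_eq_some_iff] at hp
  obtain ⟨p', hp', rfl⟩ := hp
  obtain ⟨q', hq', rfl⟩ := List.mem_map.1 hq
  have h1 := h p' (mem_hd hp')
  rw [List.all_eq_true] at h1
  have h2 := h1 q' hq'
  rw [Nat.beq_eq] at h2
  exact toSet_subset_of_land h2

theorem toplink_of_ok {M l : ℕ} {R : List (ℕ × ℕ)} {l' : ℕ}
    (h : linkOk (hd (rlv M R l)) (hd (rlv M R l')) = true) :
    ∀ p ∈ (famR M R l).getLast?, ∀ q ∈ (famR M R l').getLast?, p.2 ⊆ q.2 := by
  intro p hp q hq
  rw [linkOk, List.all_eq_true] at h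
  rw [famR, List.getLast?_map, List.getLast?_reverse, Option.mem_def,
      Option.map_eq_some_iff] at hp
  rw [famR, List.getLast?_map, List.getLast?_reverse, Option.mem_def,
      Option.map_eq_some_iff] at hq
  obtain ⟨p', hp', rfl⟩ := hp
  obtain ⟨q', hq', rfl⟩ := hq
  have h1 := h p' (mem_hd hp')
  rw [List.all_eq_true] at h1
  have h2 := h1 q' (mem_hd hq')
  rw [Nat.beq_eq] at h2
  exact toSet_subset_of_land h2

/-- special families -/
theorem sp_of_ok {M : ℕ} {b a : List ℕ} {T : List (List (ℕ × ℕ))} {R : List (ℕ × ℕ)}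
    (hb : b.Perm (List.range 9)) (ha : a.Perm b) (h : tpvOk 9 M b T R = true)
    (he : endsOk 9 M a R = true)
    (h7 : isOne 9 (tlv T 7) (b.toFinset \ {0}) (b.toFinset \ {0, 2}) = true)
    (h6 : isOne 9 (tlv T 6) (b.toFinset \ {0, 4}) (b.toFinset \ {0, 4, 5}) = true)
    (h5 : isOne 9 (tlv T 5) (b.toFinset \ {0, 1, 2}) (b.toFinset \ {0, 1, 2, 3}) = true)
    (hn : (tlv T 0).length + (tlv T 1).length + (tlv T 2).length + (tlv T 3).length +
      (tlv T 4).length + (tlv T 8).length = 0) :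
    SP 0 1 2 3 4 5 b a (famT T) (famR M R) := by
  have hlen : b.length = 9 := by rw [hb.length_eq, List.length_range]
  have hTR : T.length ≤ 9 ∧ R.length ≤ 9 := by
    rw [tpvOk, Bool.and_eq_true, Bool.and_eq_true, Nat.ble_eq, Nat.ble_eq] at h
    exact h.1
  refine ⟨tpv_of_ok (by norm_num) hb h, ends_of_ok hTR.2 he, ha, ?_, ?_, ?_, ?_⟩
  · rw [hlen]; exact eq_of_isOne h7
  · rw [hlen]; exact eq_of_isOne h6
  · rw [hlen]; exact eq_of_isOne h5
  · intro l h1 h2 h3
    rw [hlen] at h1 h2 h3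
    rcases Nat.lt_or_ge l 9 with h9 | h9
    · have h0 : (tlv T l).length = 0 := by
        interval_cases l <;> omega
      rw [famT, List.length_eq_zero_iff.1 h0]
      rfl
    · rw [famT, tlv_nil T l (by omega)]
      rfl

/-- W-structures on `{0,…,10}` -/
theorem wt_of_ok {nodd : Bool} {Ap M : ℕ} {a' : List ℕ} {T : List (List (ℕ × ℕ))}
    {R : List (ℕ × ℕ)} (ha' : a'.Perm [7, 8, 9, 10])
    (h : tpvOk 11 M ([1, 4, 0, 5] ++ a' ++ [2, 3, 6]) T R = true)
    (hone : ((List.range (topT nodd [6, 7, 8, 9, 10])).all fun l =>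
      isOneP 11 (tlv T (l + 1)) (Pk nodd 0 1 2 3 4 5 Ap [6, 7, 8, 9, 10] (l + 1))) = true)
    (h0 : (tlv T 0).length = 0) (hT : T.length ≤ topT nodd [6, 7, 8, 9, 10] + 1)
    (hl : ((List.range 11).all fun l => linkOk (hd (rlv M R l)) (tlv T (l + 1))) = true)
    (htl : linkOk (hd (rlv M R (topT nodd [6, 7, 8, 9, 10])))
      (hd (rlv M R (topT nodd [6, 7, 8, 9, 10] + 1))) = true) :
    WT nodd 0 1 2 3 4 5 Ap [6, 7, 8, 9, 10] ([1, 4, 0, 5] ++ a' ++ [2, 3, 6])
      (famT T) (famR M R) := by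
  have hTR : T.length ≤ 11 ∧ R.length ≤ 11 := by
    rw [tpvOk, Bool.and_eq_true, Bool.and_eq_true, Nat.ble_eq, Nat.ble_eq] at h
    exact h.1
  have hb : ([1, 4, 0, 5] ++ a' ++ [2, 3, 6]).Perm (List.range 11) := by
    refine ((ha'.append_left _).append_right _).trans ?_
    decide
  refine ⟨tpv_of_ok (by norm_num) hb h, by decide, ⟨6, [7, 8, 9, 10], a', rfl, ha', rfl⟩,
    ?_, ?_, ?_, ?_⟩
  · intro l h1 h2
    rw [List.all_eq_true] at hone
    have h3 := hone (l - 1) (List.mem_range.2 (by omega))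
    rw [show l - 1 + 1 = l by omega] at h3
    exact eq_of_isOneP h3
  · intro l hl0
    rcases hl0 with rfl | hl0
    · rw [famT, List.length_eq_zero_iff.1 h0]
      rfl
    · rw [famT, tlv_nil T l (by omega)]
      rfl
  · intro l _ p hp q hq
    rcases Nat.lt_or_ge l 11 with h9 | h9
    · rw [List.all_eq_true] at hl
      exact link_of_ok (hl l (List.mem_range.2 h9)) p hp q hq
    · rw [famR, rlv_nil M R l (by omega)] at hp
      simp at hp
  · rintro l rfl
    exact toplink_of_ok htl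

/-- checks for one level of a V-family on `{1,…,i}` -/
def vlevOk (i k : ℕ) (s e : Finset ℕ) (R R' : List (ℕ × ℕ)) : Bool :=
  check (i + 1) R 0 (i + 2) (2 ^ (i + 1) - 1) &&
  ((R.all fun p => (Nat.ble (pc (i + 1) p.1) (k + 1) && Nat.beq (pc (i + 1) p.2) k) &&
    Nat.beq (p.1 % 2) 0) &&
  (Nat.beq R.length (Nat.choose (i - 1) k + k % 2) &&
  ((R.getLast?.all fun p => isSet (i + 1) p.1 s && isSet (i + 1) p.2 s) &&
  ((R.head?.all fun p => isSet (i + 1) p.2 e) &&
  Nat.beq ((bss Prod.fst R 0) &&& (bss Prod.snd R' 0)) 0))))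

theorem vv_of_ok {i M : ℕ} {s e : ℕ → Finset ℕ} {R : List (ℕ × ℕ)} (hR : R.length ≤ i + 1)
    (h : ((List.range (i + 1)).all fun k =>
      vlevOk i k (s k) (e k) (rlv M R k) (rlv M R (k + 1))) = true) :
    VV i s e (famR M R) := by
  rw [List.all_eq_true] at h
  have hnil : ∀ k, i < k → famR M R k = [] := by
    intro k hk
    rw [famR, rlv_nil M R k (by omega)]
    rfl
  have hdec : ∀ k, k ≤ i →
      check (i + 1) (rlv M R k) 0 (i + 2) (2 ^ (i + 1) - 1) = true ∧
      (∀ p ∈ rlv M R k, (pc (i + 1) p.1 ≤ k + 1 ∧ pc (i + 1) p.2 = k) ∧ p.1 % 2 = 0) ∧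
      (rlv M R k).length = Nat.choose (i - 1) k + k % 2 ∧
      (∀ p ∈ (rlv M R k).getLast?, isSet (i + 1) p.1 (s k) = true ∧
        isSet (i + 1) p.2 (s k) = true) ∧
      (∀ p ∈ (rlv M R k).head?, isSet (i + 1) p.2 (e k) = true) ∧
      (bss Prod.fst (rlv M R k) 0) &&& (bss Prod.snd (rlv M R (k + 1)) 0) = 0 := by
    intro k hk
    have h1 := h k (List.mem_range.2 (by omega))
    rw [vlevOk] at h1
    simp only [Bool.and_eq_true, List.all_eq_true, Nat.beq_eq, Nat.ble_eq,
      Option.all_eq_true] at h1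
    exact h1
  have hmemR : ∀ k ≤ i, ∀ p ∈ rlv M R k, toSet p.2 ⊆ toSet p.1 ∧ p.1 < 2 ^ (i + 1) ∧
      p.2 < 2 ^ (i + 1) :=
    fun k hk => (check_sound (i + 1) _ _ _ _ (hdec k hk).1 (by simp)).1
  have hin : ∀ k, ∀ p ∈ famR M R k, k ≤ i ∧ ∃ q ∈ rlv M R k, p = toPair q := by
    intro k p hp
    rcases Nat.lt_or_ge i k with h7 | h7
    · rw [hnil k h7] at hp
      simp at hp
    · obtain ⟨q, hq, rfl⟩ := List.mem_map.1 hp
      exact ⟨h7, q, List.mem_reverse.1 hq, rfl⟩
  refine ⟨?_, ?_, ?_, ?_, ?_, hnil, ?_, ?_⟩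
  · intro k p hp
    obtain ⟨hk, q, hq, rfl⟩ := hin k p hp
    obtain ⟨h1, h2, h3⟩ := hmemR k hk q hq
    obtain ⟨⟨h4, h5⟩, h6⟩ := (hdec k hk).2.1 q hq
    refine ⟨h1, ?_, ?_, ?_⟩
    · intro j hj
      have h7 := mem_range.1 (toSet_subset_range h2 hj)
      rw [mem_Icc]
      refine ⟨?_, by omega⟩
      rcases Nat.eq_zero_or_pos j with rfl | hj0
      · exfalso
        change 0 ∈ toSet q.1 at hj
        rw [mem_toSet, Nat.testBit_zero, decide_eq_true_eq] at hj
        omega
      · exact hj0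
    · rw [pc_eq _ _ h2] at h4
      exact h4
    · rw [pc_eq _ _ h3] at h5
      exact h5
  · intro k
    rcases Nat.lt_or_ge i k with h7 | h7
    · rw [hnil k h7]; simp
    · rw [famR, List.pairwise_map, List.pairwise_reverse]
      exact (check_sound (i + 1) _ _ _ _ (hdec k h7).1 (by simp)).2.2.2.1
  · intro k
    rcases Nat.lt_or_ge i k with h7 | h7
    · rw [hnil k h7]; simp
    · rw [famR, List.isChain_map, List.isChain_reverse]
      exact (check_sound (i + 1) _ _ _ _ (hdec k h7).1 (by simp)).2.2.1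
  · intro k p hp q hq hqp
    obtain ⟨hk, p', hp', rfl⟩ := hin k p hp
    obtain ⟨-, q', hq', rfl⟩ := hin (k + 1) q hq
    exact ne_of_bss (hdec k hk).2.2.2.2.2 hp' hq' (toSet_injective hqp)
  · intro k hk
    rw [famR, List.length_map, List.length_reverse]
    exact (hdec k hk).2.2.1
  · intro k p hp
    rcases Nat.lt_or_ge i k with h7 | h7
    · rw [hnil k h7] at hp
      simp at hp
    · rw [famR, List.head?_map, List.head?_reverse, Option.mem_def,
        Option.map_eq_some_iff] at hp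
      obtain ⟨q, hq, rfl⟩ := hp
      obtain ⟨h1, h2⟩ := (hdec k h7).2.2.2.1 q hq
      rw [toPair, eq_of_isSet h1, eq_of_isSet h2]
  · intro k p hp
    rcases Nat.lt_or_ge i k with h7 | h7
    · rw [hnil k h7] at hp
      simp at hp
    · rw [famR, List.getLast?_map, List.getLast?_reverse, Option.mem_def,
        Option.map_eq_some_iff] at hp
      obtain ⟨q, hq, rfl⟩ := hp
      exact eq_of_isSet ((hdec k h7).2.2.2.2.1 q hq)

end Pool.Agent.Lib.MP_ad4d1c_co_h38
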