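import Mathlib
import Pool.Agent.Lib.MP_ad4d1c_co_h38.ExDat
import Pool.Agent.Lib.MP_ad4d1c_co_h52.ExR

set_option autoImplicit false

/-! Module D of the exact Felsner–Trotter theorem: the base families. -/

namespace Pool.Agent.Lib.MP_ad4d1c_co_h48.Ex

open Finset Pool.Agent.Lib.MP_ad4d1c_co_h38

/-- the labelling given by a list -/
def lab (l : List ℕ) (i : ℕ) : ℕ := l.getD i 0

theorem lab_injOn {l b : List ℕ} (n : ℕ) (hl : l.length = n) (hnd : l.Nodup)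
    (hb : ∀ x ∈ b, x < n) : Set.InjOn (lab l) (b.toFinset : Set ℕ) := by
  subst hl
  intro x hx y hy h
  rw [mem_coe, List.mem_toFinset] at hx hy
  have hx' := hb x hx
  have hy' := hb y hy
  rw [lab, lab, List.getD_eq_getElem _ _ hx', List.getD_eq_getElem _ _ hy'] at h
  exact (hnd.getElem_inj_iff).1 h

theorem base_sp_z {κ q A B z Z g h e : ℕ} (hnd : [κ, q, A, B, z, Z, g, h, e].Nodup) :
    ∃ T L, SP κ q A B z Z [A, B, q, z, h, Z, g, κ, e] [e, h, κ, g, B, q, A, Z, z] T L :=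
  ⟨_, _, SP.rel (f := lab [κ, q, A, B, z, Z, g, h, e]) sp_z0 (lab_injOn 9 rfl hnd (by decide))
    (by decide)⟩

theorem base_sp_A {κ q A B z Z g h e : ℕ} (hnd : [κ, q, A, B, z, Z, g, h, e].Nodup) :
    ∃ T L, SP κ q A B z Z [A, B, h, z, Z, q, g, κ, e] [e, h, Z, q, z, g, κ, B, A] T L :=
  ⟨_, _, SP.rel (f := lab [κ, q, A, B, z, Z, g, h, e]) sp_A0 (lab_injOn 9 rfl hnd (by decide))
    (by decide)⟩

theorem base_sp_g {κ q A B z Z g h e : ℕ} (hnd : [κ, q, A, B, z, Z, g, h, e].Nodup) :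
    ∃ T L, SP κ q A B z Z [A, B, Z, z, h, q, g, κ, e] [e, A, κ, q, h, B, z, Z, g] T L :=
  ⟨_, _, SP.rel (f := lab [κ, q, A, B, z, Z, g, h, e]) sp_g0 (lab_injOn 9 rfl hnd (by decide))
    (by decide)⟩

theorem base_wt_odd {q1 r1 q2 r2 x w d1 d2 d3 d4 d5 : ℕ}
    (hnd : [q1, r1, q2, r2, x, w, d1, d2, d3, d4, d5].Nodup) :
    ∃ T L, WT true q1 r1 q2 r2 x w r2 [d1, d2, d3, d4, d5]
      [r1, x, q1, w, d4, d5, d3, d2, q2, r2, d1] T L :=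
  ⟨_, _, WT.rel (f := lab [q1, r1, q2, r2, x, w, d1, d2, d3, d4, d5]) wt_odd0
    (Or.inr rfl) (lab_injOn 11 rfl hnd (by decide))⟩

theorem base_wt_even {q1 r1 q2 r2 x w d1 d2 d3 d4 d5 : ℕ}
    (hnd : [q1, r1, q2, r2, x, w, d1, d2, d3, d4, d5].Nodup) :
    ∃ T L, WT false q1 r1 q2 r2 x w r1 [d1, d2, d3, d4, d5]
      [r1, x, q1, w, d3, d5, d4, d2, q2, r2, d1] T L :=
  ⟨_, _, WT.rel (f := lab [q1, r1, q2, r2, x, w, d1, d2, d3, d4, d5]) wt_even0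
    (Or.inl rfl) (lab_injOn 11 rfl hnd (by decide))⟩

theorem base_v10 : ∃ V, VV 10 (sV 10 2) (eV 10 [2, 4, 8, 5, 7, 3, 6, 1, 9]) V :=
  ⟨_, v10⟩

end Pool.Agent.Lib.MP_ad4d1c_co_h48.Ex
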