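import Pool.Agent.Lib.MP_ad4d1c_co_h38.Check
import Pool.Agent.Lib.MP_ad4d1c_co_h51.Final

set_option autoImplicit false

namespace Pool.Agent.Lib.MP_ad4d1c_co_h38

open Finset Pool.Agent.Lib.MP_ad4d1c_co_h48 Pool.Agent.Lib.MP_ad4d1c_co_h51

theorem good_of_check {n f d B : ℕ} (h3 : f + 1 = 2 ^ (n - 1) + (n + 1) / 2)
    (h2 : firstB f d B = 0) (h1 : check n (decode f d B) 0 (n + 1) (2 ^ n - 1) = true) :
    Good n := by
  obtain ⟨ha, hb⟩ := adm_of_check h1
  refine ⟨(decode f d B).reverse.map toPair, ha, ?_, ?_, ?_⟩
  · rw [List.length_map, List.length_reverse, length_decode, h3]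
  · intro q hq
    obtain ⟨p, hp, rfl⟩ := List.mem_map.1 hq
    exact toSet_subset_range (hb p (List.mem_reverse.1 hp)).1
  · rw [List.head?_map, List.head?_reverse, getLast?_decode, h2]
    simp [toPair, toSet_zero]

theorem good_1 : Good 1 :=
  good_of_check (f := 1) (d := 0x0) (B := 1)
    (by norm_num) (by decide +kernel) (by decide +kernel)

theorem good_2 : Good 2 :=
  good_of_check (f := 2) (d := 0x10) (B := 2)
    (by norm_num) (by decide +kernel) (by decide +kernel)

theorem good_3 : Good 3 :=
  good_of_check (f := 5) (d := 0x10210011) (B := 7)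
    (by norm_num) (by decide +kernel) (by decide +kernel)

theorem good_4 : Good 4 :=
  good_of_check (f := 9) (d := 0x1021321101231130) (B := 14)
    (by norm_num) (by decide +kernel) (by decide +kernel)

theorem good_5 : Good 5 :=
  good_of_check (f := 18) (d := 0x1021324300102104321044012014034433) (B := 31)
    (by norm_num) (by decide +kernel) (by decide +kernel)

theorem good_6 : Good 6 :=
  good_of_check (f := 34) (d := 0x102132435400102105324320123451441321023415432430514511015413423320) (B := 62)
    (by norm_num) (by decide +kernel) (by decide +kernel)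

theorem good_7 : Good 7 :=
  good_of_check (f := 67) (d := 0x102132435465001021063210430120540210316543001034530120160530510265462013523103602534115105435630621306253254652340550436406502512211) (B := 127)
    (by norm_num) (by decide +kernel) (by decide +kernel)

end Pool.Agent.Lib.MP_ad4d1c_co_h38
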